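import Pool.Agent.helper11.OG.Final

/-!
OBreaker wins the orientation tournament game for all large `n` and all
`k ≥ (2 + √3) log n + 2 log log n` (logarithms to base 2), for every tournament on `k` vertices.
-/

namespace Pool.Agent.Results.MP_7dd320_co.OBreakerBound

open Pool.Agent.helper11.OG

theorem result : ∃ n₀ : ℕ, ∀ n ≥ n₀, ∀ k : ℕ,
    (2 + Real.sqrt 3) * Real.logb 2 n + 2 * Real.logb 2 (Real.logb 2 n) ≤ k →
    ∀ T : Fin k → Fin k → Prop, IsTournament T → OBreakerWins T n := main

end Pool.Agent.Results.MP_7dd320_co.OBreakerBound
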