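import Pool.Agent.TT2.Main

/-!
OMaker wins the orientation tournament game for the transitive tournament on `k` vertices for all
large `n` and all `k ≤ (2 + δ) log n` (logarithm to base 2), where `δ` is a positive constant.
-/

namespace Pool.Agent.Results.MP_7dd320_co.OMakerTransitive

open Pool.Agent.TT2

theorem result : ∃ δ : ℝ, 0 < δ ∧ ∃ n₀ : ℕ, ∀ n ≥ n₀, ∀ k : ℕ,
    (k : ℝ) ≤ (2 + δ) * Real.logb 2 n → OMakerWins (TTk k) n := main

end Pool.Agent.Results.MP_7dd320_co.OMakerTransitive
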